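import Pool.Agent.H60.APb

namespace Pool.Agent.Results.MP_2b2a50_an.No
open Filter Topology

/-- A Banach space over `𝕜`. -/
structure Ban (𝕜 : Type) [RCLike 𝕜] where
  carrier : Type
  [grp : NormedAddCommGroup carrier]
  [sp : NormedSpace 𝕜 carrier]
  [cs : CompleteSpace carrier]

attribute [instance] Ban.grp Ban.sp Ban.cs

variable {𝕜 : Type} [RCLike 𝕜]

/-- bounded operators `𝓛(X,Y)` -/
abbrev Op (X Y : Ban 𝕜) := X.carrier →L[𝕜] Y.carrier

/-- finite-rank operators -/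
def FinRank {X Y : Ban 𝕜} (T : Op X Y) : Prop :=
  FiniteDimensional 𝕜 (LinearMap.range T.toLinearMap)

/-- composition `T ∘ S` -/
noncomputable def cp {W X Y : Ban 𝕜} (T : Op X Y) (S : Op W X) : Op W Y := T.comp S

/-- the rank-one operator `f ⊗ y` -/
noncomputable def rk {X Y : Ban 𝕜} (f : X.carrier →L[𝕜] 𝕜) (y : Y.carrier) : Op X Y :=
  f.smulRight y

/-- components `comp X Y ⊆ 𝓛(X,Y)` and a function `nrm` (its values off the components play no
role) -/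
structure Pre (𝕜 : Type) [RCLike 𝕜] where
  comp : ∀ X Y : Ban 𝕜, Submodule 𝕜 (Op X Y)
  nrm : ∀ {X Y : Ban 𝕜}, Op X Y → ℝ

/-- `T ∈ A(X,Y)` -/
def Pre.Mem (A : Pre 𝕜) {X Y : Ban 𝕜} (T : Op X Y) : Prop := T ∈ A.comp X Y

/-- `nrm` is a norm on `A(X,Y)` -/
def IsNorm (A : Pre 𝕜) (X Y : Ban 𝕜) : Prop :=
  ∀ T : Op X Y, A.Mem T → 0 ≤ A.nrm T ∧ (A.nrm T = 0 → T = 0) ∧
    (∀ a : 𝕜, A.nrm (a • T) = ‖a‖ * A.nrm T) ∧
    ∀ S : Op X Y, A.Mem S → A.nrm (T + S) ≤ A.nrm T + A.nrm S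

/-- `A(X,Y)` is complete for `nrm` -/
def IsCompl (A : Pre 𝕜) (X Y : Ban 𝕜) : Prop :=
  ∀ u : ℕ → Op X Y, (∀ n, A.Mem (u n)) →
    (∀ ε > 0, ∃ N, ∀ m ≥ N, ∀ n ≥ N, A.nrm (u m - u n) < ε) →
    ∃ T : Op X Y, A.Mem T ∧ Tendsto (fun n => A.nrm (u n - T)) atTop (𝓝 0)

/-- A Banach operator ideal. -/
structure OpIdeal (𝕜 : Type) [RCLike 𝕜] extends Pre 𝕜 where
  finRank_mem : ∀ {X Y : Ban 𝕜} (T : Op X Y), FinRank T → toPre.Mem T
  isNorm : ∀ X Y : Ban 𝕜, IsNorm toPre X Y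
  isCompl : ∀ X Y : Ban 𝕜, IsCompl toPre X Y
  rank_one : ∀ {X Y : Ban 𝕜} (f : X.carrier →L[𝕜] 𝕜) (y : Y.carrier), nrm (rk f y) = ‖f‖ * ‖y‖
  ideal : ∀ {W X Y Z : Ban 𝕜} (S : Op W X) (T : Op X Y) (R : Op Y Z), toPre.Mem T →
    toPre.Mem (cp R (cp T S)) ∧ nrm (cp R (cp T S)) ≤ ‖R‖ * nrm T * ‖S‖

/-- `X` has the `l`-BAP for `A`. -/
def BAP (A : OpIdeal 𝕜) (X : Ban 𝕜) (l : ℝ) : Prop :=
  ∀ (Y : Ban 𝕜) (T : Op X Y), A.Mem T →
    ∃ (ι : Type) (_ : Preorder ι) (_ : IsDirected ι (· ≤ ·)) (_ : Nonempty ι) (S : ι → Op X X),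
      (∀ a, FinRank (S a)) ∧
      (∀ K : Set X.carrier, IsCompact K → TendstoUniformlyOn (fun a x => S a x) id atTop K) ∧
      limsup (fun a => ((A.nrm (cp T (S a)) : ℝ) : EReal)) atTop ≤
        ((l * A.nrm T : ℝ) : EReal)

/-- `X` satisfies condition `(P_l)` for `A`. -/
def CondP (A : OpIdeal 𝕜) (X : Ban 𝕜) (l : ℝ) : Prop :=
  ∀ (Y : Ban 𝕜) (T : Op X Y), A.Mem T →
    ∃ (ι : Type) (_ : Preorder ι) (_ : IsDirected ι (· ≤ ·)) (_ : Nonempty ι) (S : ι → Op X Y),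
      (∀ a, FinRank (S a)) ∧
      (∀ x, Tendsto (fun a => ‖S a x - T x‖) atTop (𝓝 0)) ∧
      limsup (fun a => ((A.nrm (S a) : ℝ) : EReal)) atTop ≤ ((l * A.nrm T : ℝ) : EReal)

/-- the finite-rank operators as a subspace -/
def fr (X Y : Ban 𝕜) : Submodule 𝕜 (Op X Y) where
  carrier := {T | FinRank T}
  zero_mem' := by
    show FiniteDimensional 𝕜 _
    rw [ContinuousLinearMap.toLinearMap_zero, LinearMap.range_zero]
    infer_instance
  add_mem' := by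
    intro T S hT hS
    have : FiniteDimensional 𝕜 (LinearMap.range T.toLinearMap) := hT
    have : FiniteDimensional 𝕜 (LinearMap.range S.toLinearMap) := hS
    refine Submodule.finiteDimensional_of_le
      (S₂ := LinearMap.range T.toLinearMap ⊔ LinearMap.range S.toLinearMap) ?_
    rintro _ ⟨x, rfl⟩
    exact Submodule.add_mem_sup ⟨x, rfl⟩ ⟨x, rfl⟩
  smul_mem' := by
    intro a T hT
    have : FiniteDimensional 𝕜 (LinearMap.range T.toLinearMap) := hT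
    refine Submodule.finiteDimensional_of_le (S₂ := LinearMap.range T.toLinearMap) ?_
    rintro _ ⟨x, rfl⟩
    exact Submodule.smul_mem _ a ⟨x, rfl⟩

theorem fr_comp {W X Y Z : Ban 𝕜} (S : Op W X) (T : Op X Y) (R : Op Y Z) (hT : FinRank T) :
    FinRank (X := W) (Y := Z) (R.comp (T.comp S)) := by
  have : FiniteDimensional 𝕜 (LinearMap.range T.toLinearMap) := hT
  refine Submodule.finiteDimensional_of_le
    (S₂ := (LinearMap.range T.toLinearMap).map R.toLinearMap) ?_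
  rintro _ ⟨x, rfl⟩
  exact ⟨T (S x), ⟨S x, rfl⟩, rfl⟩

/-- the ideal of approximable operators -/
noncomputable def approx (𝕜 : Type) [RCLike 𝕜] : OpIdeal 𝕜 where
  comp X Y := (fr X Y).topologicalClosure
  nrm T := ‖T‖
  finRank_mem T hT := Submodule.le_topologicalClosure _ hT
  isNorm X Y T _ := ⟨norm_nonneg T, fun h => norm_eq_zero.1 h, fun a => norm_smul a T,
    fun S _ => norm_add_le T S⟩
  isCompl := by
    intro X Y u hu hc
    have : CauchySeq u := Metric.cauchySeq_iff.2 fun ε hε => by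
      simpa only [dist_eq_norm] using hc ε hε
    obtain ⟨T, hT⟩ := cauchySeq_tendsto_of_complete this
    exact ⟨T, (Submodule.isClosed_topologicalClosure _).mem_of_tendsto hT (.of_forall hu),
      tendsto_iff_norm_sub_tendsto_zero.1 hT⟩
  rank_one f y := ContinuousLinearMap.norm_smulRight_apply f y
  ideal := by
    intro W X Y Z S T R hT
    refine ⟨?_, ?_⟩
    · have hc : Continuous fun T : Op X Y => (R.comp (T.comp S) : Op W Z) := by fun_prop
      exact map_mem_closure (f := fun T : Op X Y => (R.comp (T.comp S) : Op W Z)) hc hT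
        fun T hT => fr_comp S T R hT
    · refine (R.opNorm_comp_le _).trans ?_
      refine le_of_le_of_eq ?_ (mul_assoc _ _ _).symm
      exact mul_le_mul_of_nonneg_left (T.opNorm_comp_le S) (norm_nonneg R)

theorem condP (X : Ban 𝕜) (l : ℝ) (hl : 1 ≤ l) : CondP (approx 𝕜) X l := by
  intro Y T hT
  obtain ⟨u, hu, hl'⟩ := mem_closure_iff_seq_limit.1 hT
  refine ⟨ℕ, inferInstance, inferInstance, inferInstance, u, hu, fun x => ?_, ?_⟩
  · have hc : Continuous fun S : Op X Y => S x := by fun_prop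
    exact tendsto_iff_norm_sub_tendsto_zero.1 ((hc.tendsto T).comp hl')
  · have := ((continuous_coe_real_ereal.tendsto _).comp hl'.norm).limsup_eq
    refine le_of_eq_of_le this (EReal.coe_le_coe_iff.2 ?_)
    exact le_mul_of_one_le_left (norm_nonneg T) hl

theorem result (𝕜 : Type) [RCLike 𝕜] :
    ∃ (A : OpIdeal 𝕜) (X : Ban 𝕜), (∀ l : ℝ, 1 ≤ l → CondP A X l) ∧ ∀ l : ℝ, ¬ BAP A X l := by
  obtain ⟨D⟩ := H60.AP.exists_data
  refine ⟨approx 𝕜, ⟨H60.AP.E D 𝕜⟩, condP _, fun l h => ?_⟩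
  obtain ⟨ι, _, _, _, S, hS, hK, -⟩ := h ⟨H60.AP.E D 𝕜⟩ 0 (Submodule.zero_mem _)
  obtain ⟨K, hKc, hno⟩ := H60.AP.not_AP (𝕜 := 𝕜) D
  obtain ⟨a, ha⟩ := (Metric.tendstoUniformlyOn_iff.1 (hK K hKc) (1 / 10) (by norm_num)).exists
  obtain ⟨x, hx, hlt⟩ := hno (S a) (hS a)
  have := ha x hx
  rw [dist_comm, dist_eq_norm] at this
  exact lt_asymm hlt this

end Pool.Agent.Results.MP_2b2a50_an.No
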